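import Pool.Agent.H89.Lh.Delta
import Pool.Graph.R_pool_sql_team_seeded_843ab51a.V11209.FC.OnlineFin

set_option autoImplicit false

/-!
# The colouring, and its Littlestone dimension in the last coordinate
-/

namespace Pool.Agent.H89.Lh

open Finset Pool.Agent.TH138.NF Pool.Agent.V11209.FC

variable {κ : Type}

/-- the positions of the highest digits in which consecutive vertices differ -/
noncomputable def ds (K : ℕ) {p : ℕ} (x : Fin (p + 1) → ℕ) (i : Fin p) : ℕ :=
  hd K (x i.castSucc) (x i.succ)

open scoped Classical in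
/-- the colour of an increasing tuple -/
noncomputable def G (K : ℕ) {p : ℕ} (cS cM cA : Finset ℕ → κ) (rest : (Fin p → ℕ) → κ)
    (x : Fin (p + 1) → ℕ) : κ :=
  if ∃ t, ∀ i, ds K x i = t then
    cS (univ.image fun i : Fin p => dig K (ds K x i) (x i.castSucc))
  else if StrictMono (ds K x) then cM (univ.image (ds K x))
  else if StrictAnti (ds K x) then cA (univ.image (ds K x))
  else rest (ds K x)

/-- the colouring -/
noncomputable def col (K p : ℕ) (cS cM cA : Finset ℕ → κ) (rest : (Fin p → ℕ) → κ)
    (S : Finset ℕ) : κ :=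
  if h : S.card = p + 1 then G K cS cM cA rest (S.orderEmbOfFin h) else cS ∅

theorem col_image {K p : ℕ} (cS cM cA : Finset ℕ → κ) (rest : (Fin p → ℕ) → κ)
    (x : Fin (p + 1) → ℕ) (hx : StrictMono x) :
    col K p cS cM cA rest (univ.image x) = G K cS cM cA rest x := by
  have hc : (univ.image x).card = p + 1 := by
    rw [card_image_of_injective _ hx.injective, card_univ, Fintype.card_fin]
  unfold col
  rw [dif_pos hc]
  congr 1
  symm
  exact Finset.orderEmbOfFin_unique hc (fun i => mem_image_of_mem _ (mem_univ i)) hx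

theorem G_congr {K p : ℕ} (cS cM cA : Finset ℕ → κ) (rest : (Fin p → ℕ) → κ)
    {x y : Fin (p + 1) → ℕ} (h1 : ∀ i : Fin p, x i.castSucc = y i.castSucc)
    (h2 : ds K x = ds K y) : G K cS cM cA rest x = G K cS cM cA rest y := by
  unfold G
  rw [h2]
  simp only [h1]

/-- appending a last vertex -/
def app {p : ℕ} (y : Fin p → ℕ) (z : ℕ) : Fin (p + 1) → ℕ := Fin.snoc (α := fun _ => ℕ) y z

theorem app_castSucc {p : ℕ} (y : Fin p → ℕ) (z : ℕ) (i : Fin p) : app y z i.castSucc = y i := by
  unfold app
  rw [Fin.snoc_castSucc]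

theorem app_last {p : ℕ} (y : Fin p → ℕ) (z : ℕ) : app y z (Fin.last p) = z := by
  unfold app
  rw [Fin.snoc_last]

theorem app_mono {p : ℕ} (y : Fin p → ℕ) (hy : StrictMono y) (z : ℕ) (hz : ∀ i, y i < z) :
    StrictMono (app y z) := by
  intro i j hij
  induction j using Fin.lastCases with
  | last =>
    rw [app_last]
    induction i using Fin.lastCases with
    | last => exact absurd hij (lt_irrefl _)
    | cast i => rw [app_castSucc]; exact hz i
  | cast j =>
    induction i using Fin.lastCases with
    | last => exact absurd (hij.trans (Fin.castSucc_lt_last j)) (lt_irrefl _)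
    | cast i =>
      rw [app_castSucc, app_castSucc]
      exact hy (Fin.castSucc_lt_castSucc_iff.1 hij)

theorem ds_app {K q : ℕ} (y : Fin (q + 1) → ℕ) {z z' : ℕ}
    (h : hd K (y (Fin.last q)) z = hd K (y (Fin.last q)) z') : ds K (app y z) = ds K (app y z') := by
  funext i
  unfold ds
  rw [app_castSucc, app_castSucc]
  induction i using Fin.lastCases with
  | last => rw [Fin.succ_last, app_last, app_last]; exact h
  | cast i => rw [Fin.succ_castSucc, app_castSucc, app_castSucc]

/-- the colour of `insert z A`, `z` above `A`, depends only on `hd (max A) z` -/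
theorem col_insert {K q : ℕ} (cS cM cA : Finset ℕ → κ) (rest : (Fin (q + 1) → ℕ) → κ)
    (A : Finset ℕ) (hA : A.card = q + 1) : ∃ u ∈ A, ∃ f : ℕ → κ, ∀ z, (∀ x ∈ A, x < z) →
      col K (q + 1) cS cM cA rest (insert z A) = f (hd K u z) := by
  set y := A.orderEmbOfFin hA with hy
  have hyA : ∀ i, y i ∈ A := fun i => A.orderEmbOfFin_mem hA i
  have himg : univ.image y = A := by
    apply eq_of_subset_of_card_le
    · intro x hx
      obtain ⟨i, -, rfl⟩ := mem_image.1 hx
      exact hyA i
    · rw [card_image_of_injective _ y.injective, card_univ, Fintype.card_fin, hA]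
  have hins : ∀ z, univ.image (app y z) = insert z A := by
    intro z
    ext x
    rw [mem_image, mem_insert, ← himg, mem_image]
    constructor
    · rintro ⟨i, -, rfl⟩
      induction i using Fin.lastCases with
      | last => left; exact app_last _ _
      | cast i => right; exact ⟨i, mem_univ _, (app_castSucc _ _ _).symm⟩
    · rintro (rfl | ⟨i, -, rfl⟩)
      · exact ⟨Fin.last _, mem_univ _, app_last _ _⟩
      · exact ⟨i.castSucc, mem_univ _, app_castSucc _ _ _⟩
  classical
  refine ⟨y (Fin.last q), hyA _, fun s =>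
    if h : ∃ z, hd K (y (Fin.last q)) z = s then G K cS cM cA rest (app y h.choose) else cS ∅, ?_⟩
  intro z hz
  have hex : ∃ z', hd K (y (Fin.last q)) z' = hd K (y (Fin.last q)) z := ⟨z, rfl⟩
  rw [← hins z, col_image _ _ _ _ _ (app_mono y y.strictMono z fun i => hz _ (hyA i))]
  beta_reduce
  rw [dif_pos hex]
  apply G_congr
  · intro i
    rw [app_castSucc, app_castSucc]
  · exact ds_app y hex.choose_spec.symm

theorem noTree_empty (c : Finset ℕ → κ) (r j : ℕ) (V : Finset ℕ) : ∀ d, NoTree c r j V d ∅ := by
  intro d
  induction d with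
  | zero => rfl
  | succ d ih =>
    intro A hA hAc a b _
    left
    have : part c j ∅ A a = ∅ := by
      ext x
      rw [mem_part]
      simp
    rw [this]
    exact ih

theorem lt_of_below {A : Finset ℕ} {z : ℕ} (h : below A z = A.card) : ∀ x ∈ A, x < z := by
  intro x hx
  unfold below at h
  have := Finset.card_filter_eq_iff.1 h
  exact this x hx

/-- **The Littlestone dimension of the colouring in the last coordinate.** -/
theorem noTree_col {K q : ℕ} (hK : 2 ≤ K) (cS cM cA : Finset ℕ → κ) (rest : (Fin (q + 1) → ℕ) → κ)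
    (V : Finset ℕ) : ∀ (t : ℕ) (W : Finset ℕ), (∀ u ∈ W, ∀ v ∈ W, hd K u v ≤ t) →
      NoTree (col K (q + 1) cS cM cA rest) (q + 2) (q + 1) V (t + 2) W := by
  intro t
  induction t with
  | zero =>
    intro W hW A _ hAc a b hab
    obtain ⟨u, _, f, hf⟩ := col_insert (K := K) cS cM cA rest A (by omega)
    have key : ∀ z ∈ W, z ∉ A → below A z = q + 1 →
        col K (q + 1) cS cM cA rest (insert z A) = f (hd K u z) := by
      intro z _ _ hb
      exact hf z (lt_of_below (by omega))
    by_cases hne : part (col K (q + 1) cS cM cA rest) (q + 1) W A a = ∅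
    · left
      rw [hne]
      exact noTree_empty _ _ _ _ _
    · right
      obtain ⟨z, hz⟩ := Finset.nonempty_iff_ne_empty.2 hne
      have : part (col K (q + 1) cS cM cA rest) (q + 1) W A b = ∅ := by
        apply eq_empty_of_forall_notMem
        intro z' hz'
        rw [mem_part] at hz hz'
        apply hab
        have h1 := hW z hz.1 z' hz'.1
        have e : hd K u z = hd K u z' := by
          have h2 := hW z' hz'.1 z hz.1
          apply le_antisymm
          · exact hd_triangle hK le_rfl (h2.trans (Nat.zero_le _))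
          · exact hd_triangle hK le_rfl (h1.trans (Nat.zero_le _))
        rw [← hz.2.2.2, ← hz'.2.2.2, key z hz.1 hz.2.1 hz.2.2.1, key z' hz'.1 hz'.2.1 hz'.2.2.1, e]
      rw [this]
      exact noTree_empty _ _ _ _ _
  | succ t ih =>
    intro W hW A _ hAc a b hab
    obtain ⟨u, _, f, hf⟩ := col_insert (K := K) cS cM cA rest A (by omega)
    have key : ∀ z ∈ W, z ∉ A → below A z = q + 1 →
        col K (q + 1) cS cM cA rest (insert z A) = f (hd K u z) := by
      intro z _ _ hb
      exact hf z (lt_of_below (by omega))
    by_cases ha : ∀ z ∈ part (col K (q + 1) cS cM cA rest) (q + 1) W A a, hd K u z ≤ t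
    · left
      apply ih
      intro z hz z' hz'
      have h1 := ha z hz
      have h2 := ha z' hz'
      rw [hd_comm] at h1
      exact hd_triangle hK h1 h2
    · right
      push Not at ha
      obtain ⟨z, hz, hzt⟩ := ha
      by_cases hb : ∀ z ∈ part (col K (q + 1) cS cM cA rest) (q + 1) W A b, hd K u z ≤ t
      · apply ih
        intro z hz z' hz'
        have h1 := hb z hz
        have h2 := hb z' hz'
        rw [hd_comm] at h1
        exact hd_triangle hK h1 h2
      · exfalso
        push Not at hb
        obtain ⟨z', hz', hzt'⟩ := hb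
        rw [mem_part] at hz hz'
        apply hab
        have h1 := hW z hz.1 z' hz'.1
        have h2 := hW z' hz'.1 z hz.1
        have e : hd K u z = hd K u z' := by
          apply le_antisymm
          · exact hd_triangle hK le_rfl (h2.trans hzt')
          · exact hd_triangle hK le_rfl (h1.trans hzt)
        rw [← hz.2.2.2, ← hz'.2.2.2, key z hz.1 hz.2.1 hz.2.2.1, key z' hz'.1 hz'.2.1 hz'.2.2.1, e]

end Pool.Agent.H89.Lh
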