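import Mathlib

set_option autoImplicit false

/-!
# Ramsey numbers and the Littlestone dimension of the last coordinate: definitions
-/

namespace Pool.Agent.H89.Lh

/-- All `k`-subsets of `S` have the same colour. -/
def Homog {κ : Type} (k : ℕ) (c : Finset ℕ → κ) (S : Finset ℕ) : Prop :=
  ∀ A ⊆ S, ∀ B ⊆ S, A.card = k → B.card = k → c A = c B

/-- There is no mistake tree of depth `d` for the last coordinate of the colouring `c` of the
`(k + 1)`-subsets of `V`, with leaves in `W`: no complete binary tree of depth `d`, the inner nodes
of which are labelled by `k`-subsets `A` of `V` and by two different colours `a`, `b`, one for each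
child, such that for each leaf there is a vertex `x ∈ W` which agrees with the branch of the leaf:
for each node on the branch `x` is above all the elements of `A` and `A ∪ {x}` has the colour of
the child. -/
def NoTree {κ : Type} (c : Finset ℕ → κ) (k : ℕ) (V : Finset ℕ) : ℕ → Set ℕ → Prop
  | 0, W => W = ∅
  | d + 1, W => ∀ A ⊆ V, A.card = k → ∀ a b : κ, a ≠ b →
      NoTree c k V d {x ∈ W | (∀ y ∈ A, y < x) ∧ c (insert x A) = a} ∨
      NoTree c k V d {x ∈ W | (∀ y ∈ A, y < x) ∧ c (insert x A) = b}

/-- The Ramsey number: the least `N` such that every colouring of the `r`-subsets of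
`{0, …, N - 1}` with colours in `κ` has a homogeneous set of size `n`. -/
noncomputable def R (κ : Type) (r n : ℕ) : ℕ :=
  sInf {N : ℕ | ∀ c : Finset ℕ → κ, ∃ H ⊆ Finset.range N, H.card = n ∧ Homog r c H}

/-- The Ramsey number of the colourings whose last coordinate has Littlestone dimension at most `d`:
the least `N` such that every colouring of the `(k + 1)`-subsets of `{0, …, N - 1}` with colours in
`κ` and without mistake tree of depth `d + 1` for the last coordinate has a homogeneous set of
size `n`. -/
noncomputable def RL (κ : Type) (k d n : ℕ) : ℕ :=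
  sInf {N : ℕ | ∀ c : Finset ℕ → κ,
    NoTree c k (Finset.range N) (d + 1) (Finset.range N : Set ℕ) →
      ∃ H ⊆ Finset.range N, H.card = n ∧ Homog (k + 1) c H}

end Pool.Agent.H89.Lh
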