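import Mathlib

set_option autoImplicit false

/-!
# The highest digit in which two numbers differ
-/

namespace Pool.Agent.H89.Lh

/-- The position of the highest digit in base `K` in which `x` and `y` differ (`0` for `x = y`). -/
noncomputable def hd (K x y : ℕ) : ℕ := sInf {t : ℕ | x / K ^ (t + 1) = y / K ^ (t + 1)}

/-- The digit of `x` at the position `t` in base `K`. -/
def dig (K t x : ℕ) : ℕ := x / K ^ t % K

variable {K : ℕ}

theorem hd_set (hK : 2 ≤ K) (x y : ℕ) : ∃ t : ℕ, x / K ^ (t + 1) = y / K ^ (t + 1) := by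
  obtain ⟨t, ht⟩ : ∃ t, max x y < K ^ t := ⟨max x y, Nat.lt_pow_self (by omega)⟩
  refine ⟨t, ?_⟩
  have h1 : K ^ t ≤ K ^ (t + 1) := Nat.pow_le_pow_right (by omega) (Nat.le_succ t)
  rw [Nat.div_eq_of_lt, Nat.div_eq_of_lt]
  · exact lt_of_lt_of_le (lt_of_le_of_lt (le_max_right _ _) ht) h1
  · exact lt_of_lt_of_le (lt_of_le_of_lt (le_max_left _ _) ht) h1

theorem div_mono_eq {x y s t : ℕ} (hst : s ≤ t) (h : x / K ^ s = y / K ^ s) :
    x / K ^ t = y / K ^ t := by
  obtain ⟨u, rfl⟩ := Nat.exists_eq_add_of_le hst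
  rw [pow_add, ← Nat.div_div_eq_div_mul, ← Nat.div_div_eq_div_mul, h]

theorem hd_le_iff (hK : 2 ≤ K) {x y t : ℕ} : hd K x y ≤ t ↔ x / K ^ (t + 1) = y / K ^ (t + 1) := by
  constructor
  · intro h
    have := Nat.sInf_mem (s := {t : ℕ | x / K ^ (t + 1) = y / K ^ (t + 1)}) (hd_set hK x y)
    exact div_mono_eq (Nat.succ_le_succ h) this
  · intro h
    exact Nat.sInf_le h

theorem hd_max (hK : 2 ≤ K) {x y z : ℕ} (hxy : x ≤ y) (hyz : y ≤ z) :
    hd K x z = max (hd K x y) (hd K y z) := by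
  apply le_antisymm
  · rw [hd_le_iff hK]
    have h1 := (hd_le_iff hK (x := x) (y := y)).1 (le_max_left (hd K x y) (hd K y z))
    have h2 := (hd_le_iff hK (x := y) (y := z)).1 (le_max_right (hd K x y) (hd K y z))
    exact h1.trans h2
  · have h := (hd_le_iff hK (x := x) (y := z)).1 le_rfl
    have h1 : x / K ^ (hd K x z + 1) ≤ y / K ^ (hd K x z + 1) := Nat.div_le_div_right hxy
    have h2 : y / K ^ (hd K x z + 1) ≤ z / K ^ (hd K x z + 1) := Nat.div_le_div_right hyz
    apply max_le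
    · rw [hd_le_iff hK]; omega
    · rw [hd_le_iff hK]; omega

theorem hd_comm (x y : ℕ) : hd K x y = hd K y x := by
  unfold hd
  congr 1
  ext t
  exact eq_comm

theorem hd_triangle (hK : 2 ≤ K) {x y z t : ℕ} (h1 : hd K x y ≤ t) (h2 : hd K y z ≤ t) :
    hd K x z ≤ t := by
  rw [hd_le_iff hK] at h1 h2 ⊢
  exact h1.trans h2

theorem hd_lt (hK : 2 ≤ K) {x y m : ℕ} (hx : x < K ^ (m + 1)) (hy : y < K ^ (m + 1)) :
    hd K x y ≤ m := by
  rw [hd_le_iff hK, Nat.div_eq_of_lt hx, Nat.div_eq_of_lt hy]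

theorem dig_lt (hK : 2 ≤ K) (t x : ℕ) : dig K t x < K := Nat.mod_lt _ (by omega)

/-- numbers with the same digits above the position `t` which differ there -/
theorem dig_lt_dig (hK : 2 ≤ K) {x y t : ℕ} (hxy : x < y) (h : hd K x y = t) :
    dig K t x < dig K t y := by
  have h1 := (hd_le_iff hK (x := x) (y := y)).1 h.le
  have h2 : x / K ^ t < y / K ^ t := by
    rcases (Nat.div_le_div_right hxy.le : x / K ^ t ≤ y / K ^ t).lt_or_eq with h2 | h2
    · exact h2
    · exfalso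
      rcases Nat.eq_zero_or_pos t with ht | ht
      · rw [ht, pow_zero, Nat.div_one, Nat.div_one] at h2
        omega
      · obtain ⟨s, rfl⟩ : ∃ s, t = s + 1 := ⟨t - 1, by omega⟩
        have := (hd_le_iff hK (x := x) (y := y)).2 h2
        omega
  rw [pow_succ, ← Nat.div_div_eq_div_mul, ← Nat.div_div_eq_div_mul] at h1
  unfold dig
  have h3 := Nat.div_add_mod (x / K ^ t) K
  have h4 := Nat.div_add_mod (y / K ^ t) K
  rw [h1] at h3
  omega

end Pool.Agent.H89.Lh
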