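import Pool.Agent.H89.Lh.Main

set_option autoImplicit false

/-!
# Ramsey numbers and the Littlestone dimension of the last coordinate: final form
-/

namespace Pool.Agent.H89.Lh

open Finset

variable {κ : Type}

theorem Homog.subset {k : ℕ} {c : Finset ℕ → κ} {S T : Finset ℕ} (h : Homog k c S) (hT : T ⊆ S) :
    Homog k c T := fun A hA B hB => h A (hA.trans hT) B (hB.trans hT)

theorem R_mem (κ : Type) [Fintype κ] [Nonempty κ] (r n : ℕ) :
    ∀ c : Finset ℕ → κ, ∃ H ⊆ range (R κ r n), H.card = n ∧ Homog r c H := by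
  refine Nat.sInf_mem (s := {N : ℕ | ∀ c : Finset ℕ → κ, ∃ H ⊆ Finset.range N, H.card = n ∧
    Homog r c H}) ?_
  obtain ⟨N, hN⟩ := Pool.Agent.H507R3.RamAll.ramsey_finset κ r n
  refine ⟨N, fun c => ?_⟩
  obtain ⟨T, hT, hTc, e, he⟩ := hN (range N) c (by rw [card_range])
  exact ⟨T, hT, hTc, fun A hA B hB hAc hBc => by rw [he A hA hAc, he B hB hBc]⟩

theorem exists_of_lt_R {r n N : ℕ} (h : N < R κ r n) :
    ∃ c : Finset ℕ → κ, ∀ H ⊆ range N, H.card = n → ¬ Homog r c H := by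
  by_contra hcon
  push Not at hcon
  exact absurd (Nat.sInf_le (s := {N : ℕ | ∀ c : Finset ℕ → κ, ∃ H ⊆ Finset.range N, H.card = n ∧
    Homog r c H}) hcon) (not_le.2 h)

theorem R_le {r n N : ℕ}
    (h : ∀ c : Finset ℕ → κ, ∃ H ⊆ range N, H.card = n ∧ Homog r c H) : R κ r n ≤ N :=
  Nat.sInf_le h

theorem lt_R [Fintype κ] [Nonempty κ] {r n N : ℕ} (c : Finset ℕ → κ)
    (h : ∀ H ⊆ range N, H.card = n → ¬ Homog r c H) : N < R κ r n := by
  by_contra hcon
  push Not at hcon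
  obtain ⟨H, h1, h2, h3⟩ := R_mem κ r n c
  exact h H (h1.trans (range_mono hcon)) h2 h3

theorem NoTree.mono {c : Finset ℕ → κ} {k : ℕ} {V V' : Finset ℕ} (hV : V' ⊆ V) :
    ∀ {d : ℕ} {W W' : Set ℕ}, NoTree c k V d W → W' ⊆ W → NoTree c k V' d W'
  | 0, W, W', h, hW => by
    have h' : W = ∅ := h
    rw [h'] at hW
    exact Set.subset_empty_iff.1 hW
  | d + 1, W, W', h, hW => by
    intro A hA hAc a b hab
    rcases h A (hA.trans hV) hAc a b hab with h | h
    · exact Or.inl (h.mono hV fun x hx => ⟨hW hx.1, hx.2⟩)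
    · exact Or.inr (h.mono hV fun x hx => ⟨hW hx.1, hx.2⟩)

theorem RL_mem (κ : Type) [Fintype κ] [Nonempty κ] (k d n : ℕ) : ∀ c : Finset ℕ → κ,
    NoTree c k (range (RL κ k d n)) (d + 1) (range (RL κ k d n) : Set ℕ) →
      ∃ H ⊆ range (RL κ k d n), H.card = n ∧ Homog (k + 1) c H :=
  Nat.sInf_mem (s := {N : ℕ | ∀ c : Finset ℕ → κ,
    NoTree c k (Finset.range N) (d + 1) (Finset.range N : Set ℕ) →
      ∃ H ⊆ Finset.range N, H.card = n ∧ Homog (k + 1) c H})
    ⟨R κ (k + 1) n, fun c _ => R_mem κ (k + 1) n c⟩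

theorem RL_le {k d n N : ℕ} (h : ∀ c : Finset ℕ → κ,
    NoTree c k (range N) (d + 1) (range N : Set ℕ) →
      ∃ H ⊆ range N, H.card = n ∧ Homog (k + 1) c H) : RL κ k d n ≤ N :=
  Nat.sInf_le h

theorem lt_RL [Fintype κ] [Nonempty κ] {k d n N : ℕ} (c : Finset ℕ → κ)
    (hc : NoTree c k (range N) (d + 1) (range N : Set ℕ))
    (h : ∀ H ⊆ range N, H.card = n → ¬ Homog (k + 1) c H) : N < RL κ k d n := by
  by_contra hcon
  push Not at hcon
  have hs : range (RL κ k d n) ⊆ range N := range_mono hcon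
  obtain ⟨H, h1, h2, h3⟩ := RL_mem κ k d n c (hc.mono hs (by exact_mod_cast hs))
  exact h H (h1.trans hs) h2 h3

theorem RL_le_R (κ : Type) [Fintype κ] [Nonempty κ] (k d n : ℕ) :
    RL κ k d n ≤ R κ (k + 1) n := RL_le fun c _ => R_mem κ (k + 1) n c

theorem RL_mono [Fintype κ] [Nonempty κ] {k d n n' : ℕ} (h : n ≤ n') :
    RL κ k d n ≤ RL κ k d n' := by
  refine RL_le fun c hc => ?_
  obtain ⟨H, h1, h2, h3⟩ := RL_mem κ k d n' c hc
  obtain ⟨T, hT, hTc⟩ := exists_subset_card_eq (show n ≤ H.card by omega)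
  exact ⟨T, hT.trans h1, hTc, h3.subset hT⟩

/-- few vertices have no deep trees -/
theorem noTree_of_card (c : Finset ℕ → κ) (k : ℕ) (V : Finset ℕ) : ∀ (d : ℕ) (W : Set ℕ)
    (F : Finset ℕ), W ⊆ (F : Set ℕ) → F.card < 2 ^ d → NoTree c k V d W := by
  intro d
  induction d with
  | zero =>
    intro W F hW hF
    rw [pow_zero, Nat.lt_one_iff, card_eq_zero] at hF
    rw [hF, coe_empty] at hW
    exact Set.subset_empty_iff.1 hW
  | succ d ih =>
    intro W F hW hF A hA hAc a b hab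
    classical
    set Fa := F.filter (fun x => c (insert x A) = a) with hFa
    set Fb := F.filter (fun x => c (insert x A) = b) with hFb
    have hsum : Fa.card + Fb.card ≤ F.card := by
      rw [← card_union_of_disjoint]
      · exact card_le_card (union_subset (filter_subset _ _) (filter_subset _ _))
      · rw [disjoint_left]
        intro x hx hx'
        exact hab ((mem_filter.1 hx).2.symm.trans (mem_filter.1 hx').2)
    rcases Nat.lt_or_ge Fa.card (2 ^ d) with h1 | h1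
    · left
      refine ih _ Fa (fun x hx => ?_) h1
      exact mem_coe.2 (mem_filter.2 ⟨hW hx.1, hx.2.2⟩)
    · right
      refine ih _ Fb (fun x hx => ?_) (by rw [pow_succ] at hF; omega)
      exact mem_coe.2 (mem_filter.2 ⟨hW hx.1, hx.2.2⟩)

theorem RL_eq_R (κ : Type) [Fintype κ] [Nonempty κ] (k d n : ℕ) (h : R κ (k + 1) n ≤ 2 ^ (d + 1)) :
    RL κ k d n = R κ (k + 1) n := by
  apply le_antisymm (RL_le_R κ k d n)
  apply R_le
  intro c
  by_contra hcon
  have h1 : RL κ k d n < R κ (k + 1) n := by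
    refine lt_of_le_of_ne (RL_le_R κ k d n) fun he => hcon ?_
    rw [he]
    exact R_mem κ (k + 1) n c
  apply hcon
  apply RL_mem
  exact noTree_of_card c k _ (d + 1) _ (range (RL κ k d n)) Set.Subset.rfl (by
    rw [card_range]
    omega)

/-- **Lower bound.** -/
theorem main_lower {q d n : ℕ} (hd : 1 ≤ d) (hdR : d < R Bool (q + 3) n) (h3 : 3 ≤ R Bool (q + 3) n) :
    (R Bool (q + 3) n - 1) ^ d < RL Bool (q + 3) d (3 * n + q) := by
  obtain ⟨m, rfl⟩ : ∃ m, d = m + 1 := ⟨d - 1, by omega⟩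
  obtain ⟨c, hc⟩ := exists_of_lt_R (show R Bool (q + 3) n - 1 < R Bool (q + 3) n by omega)
  obtain ⟨c', hc'⟩ := exists_of_lt_R hdR
  obtain ⟨χ, h4, h5⟩ := lower_arrow (m := m) (show 2 ≤ R Bool (q + 3) n - 1 by omega) c c' hc hc'
  exact lt_RL χ h4 h5

theorem transfer [Fintype κ] [Nonempty κ] (k n : ℕ) (V : Finset ℕ) (c : Finset ℕ → κ)
    (hV : R κ k n ≤ V.card) : ∃ H ⊆ V, H.card = n ∧ Homog k c H := by
  let f : ℕ → ℕ := fun i => if hi : i < V.card then V.orderEmbOfFin rfl ⟨i, hi⟩ else 0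
  have hval : ∀ i (hi : i < V.card), f i = V.orderEmbOfFin rfl ⟨i, hi⟩ := fun i hi => by
    simp only [f]
    rw [dif_pos hi]
  have hinj : ∀ i j, i < V.card → j < V.card → f i = f j → i = j := by
    intro i j hi hj hij
    rw [hval i hi, hval j hj] at hij
    have := (V.orderEmbOfFin rfl).injective hij
    simpa using this
  obtain ⟨H, h1, h2, h3⟩ := R_mem κ k n (fun A => c (A.image f))
  have hlt : ∀ i ∈ H, i < V.card := fun i hi => lt_of_lt_of_le (mem_range.1 (h1 hi)) hV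
  have hinjH : ∀ A ⊆ H, Set.InjOn f (A : Set ℕ) := fun A hA i hi j hj hij =>
    hinj i j (hlt i (hA hi)) (hlt j (hA hj)) hij
  refine ⟨H.image f, ?_, ?_, ?_⟩
  · intro y hy
    obtain ⟨i, hi, rfl⟩ := mem_image.1 hy
    rw [hval i (hlt i hi)]
    exact V.orderEmbOfFin_mem rfl _
  · rw [card_image_of_injOn (hinjH H Subset.rfl), h2]
  · intro A hA B hB hAc hBc
    have pre : ∀ A ⊆ H.image f, ∃ A' ⊆ H, A'.image f = A ∧ A'.card = A.card := by
      intro A hA
      refine ⟨H.filter (fun i => f i ∈ A), filter_subset _ _, ?_, ?_⟩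
      · ext y
        rw [mem_image]
        constructor
        · rintro ⟨i, hi, rfl⟩
          exact (mem_filter.1 hi).2
        · intro hy
          obtain ⟨i, hi, rfl⟩ := mem_image.1 (hA hy)
          exact ⟨i, mem_filter.2 ⟨hi, hy⟩, rfl⟩
      · rw [← card_image_of_injOn (hinjH _ (filter_subset _ _))]
        congr 1
        ext y
        rw [mem_image]
        constructor
        · rintro ⟨i, hi, rfl⟩
          exact (mem_filter.1 hi).2
        · intro hy
          obtain ⟨i, hi, rfl⟩ := mem_image.1 (hA hy)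
          exact ⟨i, mem_filter.2 ⟨hi, hy⟩, rfl⟩
    obtain ⟨A', a1, a2, a3⟩ := pre A hA
    obtain ⟨B', b1, b2, b3⟩ := pre B hB
    have := h3 A' a1 B' b1 (a3.trans hAc) (b3.trans hBc)
    simp only [a2, b2] at this
    exact this

theorem R_pos [Fintype κ] [Nonempty κ] {k n : ℕ} (hn : 1 ≤ n) : 1 ≤ R κ k n := by
  obtain ⟨H, h1, h2, -⟩ := R_mem κ k n (fun _ => Classical.arbitrary κ)
  have := card_le_card h1
  rw [card_range, h2] at this
  omega

/-- **Upper bound.** -/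
theorem main_upper [Fintype κ] [Nonempty κ] {k d n : ℕ} (hk : 1 ≤ k) (hn : 1 ≤ n) :
    RL κ k d n ≤ (2 * Fintype.card κ * R κ k n) ^ ((k + 1) * (d + 1)) := by
  refine RL_le fun c hc => ?_
  refine Pool.Agent.V11209.FC.online_upper κ (k₀ := k) (n := n) (M := R κ k n) (d := d + 1) (s := 1)
    hk (R_pos hn) (by omega) (fun V c hV => transfer k n V c hV) _ c ?_ ?_
  · intro j h1 h2
    obtain rfl : j = k := by omega
    rwa [noTree_iff] at hc
  · rw [card_range, pow_one]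

/-- Erdős: `R_2 (2 j + 1) > 2 ^ j` -/
theorem erdos_pairs (j : ℕ) (hj : 1 ≤ j) : 2 ^ j < R Bool 2 (2 * j + 1) := by
  classical
  obtain ⟨G, g1, g2, -⟩ := Pool.Agent.Y422.RC.exists_graph2 (2 ^ j) (2 * j + 1) 2 (2 ^ j + 1) 1
    (by norm_num) (by
      have h0 : ((2 ^ j : ℕ).choose (2 ^ j + 1) : ℝ) = 0 := by
        rw [Nat.choose_eq_zero_of_lt (by omega)]
        simp
      rw [h0, zero_mul, zero_mul, add_zero]
      have e1 : (1 : ℝ) - 1 / ((2 : ℕ) : ℝ) = 1 / ((2 : ℕ) : ℝ) := by norm_num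
      rw [e1, ← two_mul]
      have h1 : (((2 ^ j : ℕ).choose (2 * j + 1) : ℕ) : ℝ) ≤
          ((2 ^ j : ℕ) : ℝ) ^ (2 * j + 1) / ((2 * j + 1).factorial : ℝ) := Nat.choose_le_pow_div _ _
      have h2 : (6 : ℝ) ≤ ((2 * j + 1).factorial : ℝ) := by
        have h6 : Nat.factorial 3 ≤ (2 * j + 1).factorial := Nat.factorial_le (by omega)
        have h7 : (6 : ℕ) ≤ (2 * j + 1).factorial := h6
        exact_mod_cast h7
      have h3 : (2 * j + 1).choose 2 = j * (2 * j + 1) := by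
        rw [Nat.choose_two_right]
        have : (2 * j + 1) * (2 * j + 1 - 1) = 2 * (j * (2 * j + 1)) := by
          rw [Nat.add_sub_cancel]; ring
        rw [this, Nat.mul_div_cancel_left _ (by norm_num)]
      have h4 : ((2 ^ j : ℕ) : ℝ) ^ (2 * j + 1) = 2 ^ (j * (2 * j + 1)) := by
        push_cast
        rw [← pow_mul]
      rw [h3]
      rw [h4] at h1
      have h5 : (1 / ((2 : ℕ) : ℝ)) ^ (j * (2 * j + 1)) = 1 / 2 ^ (j * (2 * j + 1)) := by
        rw [div_pow, one_pow]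
        norm_num
      rw [h5]
      have hpos : (0 : ℝ) < 2 ^ (j * (2 * j + 1)) := by positivity
      calc 2 * ((((2 ^ j : ℕ).choose (2 * j + 1) : ℕ) : ℝ) * (1 / 2 ^ (j * (2 * j + 1))))
          ≤ 2 * ((2 ^ (j * (2 * j + 1)) / ((2 * j + 1).factorial : ℝ)) *
            (1 / 2 ^ (j * (2 * j + 1)))) := by gcongr
        _ = 2 / ((2 * j + 1).factorial : ℝ) := by field_simp
        _ ≤ 2 / 6 := by
            apply div_le_div_of_nonneg_left (by norm_num) (by norm_num) h2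
        _ < 1 := by norm_num)
  let c : Finset ℕ → Bool := fun A => decide (∃ x y : Fin (2 ^ j), (x : ℕ) ∈ A ∧ (y : ℕ) ∈ A ∧ G.Adj x y)
  have hcpair : ∀ x y : Fin (2 ^ j), (c {(x : ℕ), (y : ℕ)} = true ↔ G.Adj x y) := by
    intro x y
    simp only [c, decide_eq_true_eq, mem_insert, mem_singleton]
    constructor
    · rintro ⟨u, v, hu, hv, huv⟩
      rcases hu with hu | hu <;> rcases hv with hv | hv
      · exact absurd ((Fin.ext hu).trans (Fin.ext hv).symm) huv.ne
      · rwa [← Fin.ext hu, ← Fin.ext hv]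
      · rw [Fin.ext hu, Fin.ext hv] at huv
        exact huv.symm
      · exact absurd ((Fin.ext hu).trans (Fin.ext hv).symm) huv.ne
    · intro h
      exact ⟨x, y, Or.inl rfl, Or.inr rfl, h⟩
  apply lt_R c
  intro H hH hHc hhom
  let S : Finset (Fin (2 ^ j)) := univ.filter (fun v => (v : ℕ) ∈ H)
  have hSc : S.card = 2 * j + 1 := by
    rw [← hHc, ← card_map Fin.valEmbedding (s := S)]
    congr 1
    ext x
    simp only [S, mem_map, mem_filter, mem_univ, true_and, Fin.valEmbedding_apply]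
    constructor
    · rintro ⟨v, hv, rfl⟩
      exact hv
    · intro hx
      exact ⟨⟨x, mem_range.1 (hH hx)⟩, hx, rfl⟩
  have hS : ∀ x ∈ S, (x : ℕ) ∈ H := fun x hx => (mem_filter.1 hx).2
  have hpair : ∀ x ∈ S, ∀ y ∈ S, x ≠ y → ({(x : ℕ), (y : ℕ)} : Finset ℕ) ⊆ H ∧
      ({(x : ℕ), (y : ℕ)} : Finset ℕ).card = 2 := by
    intro x hx y hy hxy
    refine ⟨?_, card_pair (fun h => hxy (Fin.ext h))⟩
    intro z hz
    rw [mem_insert, mem_singleton] at hz
    rcases hz with rfl | rfl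
    · exact hS x hx
    · exact hS y hy
  by_cases hall : ∀ x ∈ S, ∀ y ∈ S, x ≠ y → G.Adj x y
  · refine g1 S ?_
    rw [SimpleGraph.isNClique_iff]
    exact ⟨fun x hx y hy hxy => hall x hx y hy hxy, hSc⟩
  · push Not at hall
    obtain ⟨x, hx, y, hy, hxy, hn⟩ := hall
    refine g2 S ?_
    rw [SimpleGraph.isNClique_iff]
    refine ⟨fun u hu v hv huv => ?_, hSc⟩
    rw [SimpleGraph.compl_adj]
    refine ⟨huv, fun hadj => hn ?_⟩
    rw [← hcpair]
    rw [hhom _ (hpair x hx y hy hxy).1 _ (hpair u hu v hv huv).1 (hpair x hx y hy hxy).2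
      (hpair u hu v hv huv).2]
    exact (hcpair u v).2 hadj

/-- **Triples, six colours: lower bound.** -/
theorem three_lower {j d : ℕ} (hj : 1 ≤ j) (hd : 1 ≤ d) (hdj : d ≤ 2 ^ j) :
    2 ^ (j * d) < RL (Fin 3 × Bool) 2 d (2 * j + 2) := by
  obtain ⟨m, rfl⟩ : ∃ m, d = m + 1 := ⟨d - 1, by omega⟩
  have h := erdos_pairs j hj
  obtain ⟨c, hc⟩ := exists_of_lt_R h
  obtain ⟨c', hc'⟩ := exists_of_lt_R (lt_of_le_of_lt hdj h)
  have h2 : 2 ≤ 2 ^ j := by
    calc 2 = 2 ^ 1 := rfl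
      _ ≤ 2 ^ j := Nat.pow_le_pow_right (by norm_num) hj
  obtain ⟨χ, h4, h5⟩ := lower_arrow_three (m := m) h2 c c' hc hc'
  rw [pow_mul]
  exact lt_RL χ h4 h5

/-- **Triples: upper bound.** -/
theorem three_upper [Fintype κ] [Nonempty κ] {d n : ℕ} :
    RL κ 2 d n ≤ (2 * Fintype.card κ) ^ (3 * (Fintype.card κ * n + 1) * (d + 1)) := by
  refine RL_le fun c hc => ?_
  refine Pool.Agent.V11209.FC.online_upper κ (k₀ := 2) (n := n)
    (M := (2 * Fintype.card κ) ^ (Fintype.card κ * n)) (d := d + 1) (s := 1)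
    (by norm_num) (Nat.one_le_iff_ne_zero.2 (by
      have := Fintype.card_pos (α := κ)
      positivity)) (by omega)
    (fun V c hV => Pool.Agent.V11209.FC.pair_ramsey n V c hV) _ c ?_ ?_
  · intro j h1 h2
    obtain rfl : j = 2 := by omega
    rwa [noTree_iff] at hc
  · rw [card_range]
    refine le_of_eq ?_
    rw [← pow_succ', ← pow_mul, pow_one]
    congr 1
    ring

/-- **Logarithmic form.** -/
theorem main_log {k d n : ℕ} (hk : 3 ≤ k) (hn : 4 * k ≤ n) (hd : 1 ≤ d) (hdR : d < R Bool k (n / 4))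
    (h3 : 3 ≤ R Bool k (n / 4)) :
    d * Real.log (R Bool k (n / 4) - 1) ≤ Real.log (RL Bool k d n) ∧
      Real.log (RL Bool k d n) ≤ (k + 1) * (d + 1) * Real.log (4 * R Bool k n) := by
  obtain ⟨q, rfl⟩ : ∃ q, k = q + 3 := ⟨k - 3, by omega⟩
  constructor
  · have h1 := main_lower (q := q) hd hdR h3
    have h2 : RL Bool (q + 3) d (3 * (n / 4) + q) ≤ RL Bool (q + 3) d n := RL_mono (by omega)
    have h4 : (R Bool (q + 3) (n / 4) - 1) ^ d ≤ RL Bool (q + 3) d n := (h1.trans_le h2).le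
    have e : ((R Bool (q + 3) (n / 4) : ℝ) - 1) = ((R Bool (q + 3) (n / 4) - 1 : ℕ) : ℝ) := by
      rw [Nat.cast_sub (by omega)]; norm_num
    rw [e, ← Real.log_pow]
    apply Real.log_le_log
    · have : 0 < R Bool (q + 3) (n / 4) - 1 := by omega
      have : (0 : ℝ) < ((R Bool (q + 3) (n / 4) - 1 : ℕ) : ℝ) := by exact_mod_cast this
      positivity
    · exact_mod_cast h4
  · have h1 := main_upper (κ := Bool) (k := q + 3) (d := d) (n := n) (by omega) (by omega)
    rw [Fintype.card_bool] at h1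
    have hpos := R_pos (κ := Bool) (k := q + 3) (n := n) (by omega)
    rcases Nat.eq_zero_or_pos (RL Bool (q + 3) d n) with h0 | h0
    · rw [h0]
      simp only [Nat.cast_zero, Real.log_zero]
      have : 0 ≤ Real.log (4 * (R Bool (q + 3) n : ℝ)) := Real.log_nonneg (by
        have : (1 : ℝ) ≤ R Bool (q + 3) n := by exact_mod_cast hpos
        linarith)
      positivity
    · have h5 : Real.log (RL Bool (q + 3) d n) ≤
          Real.log (((4 * R Bool (q + 3) n) ^ ((q + 3 + 1) * (d + 1)) : ℕ) : ℝ) :=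
        Real.log_le_log (by exact_mod_cast h0) (by exact_mod_cast h1)
      refine h5.trans (le_of_eq ?_)
      rw [Nat.cast_pow, Real.log_pow]
      push_cast
      ring

end Pool.Agent.H89.Lh
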