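import Pool.Agent.H89.Lh.Seg

set_option autoImplicit false

/-!
# Homogeneous sets of the colouring are small
-/

namespace Pool.Agent.H89.Lh

open Finset Pool.Agent.TH138.NF Pool.Agent.V11209.FC

/-- a sequence of signs: `P` is inherited to the left and `N` to the right -/
theorem signs (ℓ : ℕ) (P N : ℕ → Prop) (hP : ∀ i, i + 1 < ℓ → P (i + 1) → P i)
    (hN : ∀ i, i + 1 < ℓ → N i → N (i + 1)) :
    ∃ a b, a ≤ b ∧ b ≤ ℓ ∧ (∀ i, i < a → P i) ∧ (∀ i, a ≤ i → i < b → ¬ P i ∧ ¬ N i) ∧
      ∀ i, b ≤ i → i < ℓ → N i := by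
  classical
  -- `a`: the first index without `P`
  obtain ⟨a, ha, ha1, ha2⟩ : ∃ a, a ≤ ℓ ∧ (∀ i, i < a → P i) ∧ ∀ i, a ≤ i → i < ℓ → ¬ P i := by
    by_cases h : ∃ i, i < ℓ ∧ ¬ P i
    · refine ⟨Nat.find h, (Nat.find_spec h).1.le, ?_, ?_⟩
      · intro i hi
        have := Nat.find_min h hi
        by_contra hc
        exact this ⟨hi.trans (Nat.find_spec h).1, hc⟩
      · intro i hi
        induction i, hi using Nat.le_induction with
        | base => exact fun _ => (Nat.find_spec h).2
        | succ i hi ih =>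
          intro h1 h2
          exact ih (by omega) (hP i h1 h2)
    · push Not at h
      exact ⟨ℓ, le_rfl, h, fun i h1 h2 => absurd h2 (by omega)⟩
  obtain ⟨b, hb, hb1, hb2⟩ : ∃ b, b ≤ ℓ ∧ (∀ i, i < b → ¬ N i) ∧ ∀ i, b ≤ i → i < ℓ → N i := by
    by_cases h : ∃ i, i < ℓ ∧ N i
    · refine ⟨Nat.find h, (Nat.find_spec h).1.le, ?_, ?_⟩
      · intro i hi hc
        exact Nat.find_min h hi ⟨hi.trans (Nat.find_spec h).1, hc⟩
      · intro i hi
        induction i, hi using Nat.le_induction with
        | base => exact fun _ => (Nat.find_spec h).2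
        | succ i hi ih =>
          intro h1
          exact hN i h1 (ih (by omega))
    · push Not at h
      exact ⟨ℓ, le_rfl, h, fun i h1 h2 => absurd h2 (by omega)⟩
  rcases le_total a b with hab | hab
  · exact ⟨a, b, hab, hb, ha1, fun i h1 h2 => ⟨ha2 i h1 (by omega), hb1 i h2⟩, hb2⟩
  · refine ⟨a, a, le_rfl, ha, ha1, fun i h1 h2 => absurd h2 (by omega), fun i h1 h2 => ?_⟩
    exact hb2 i (hab.trans h1) h2

section

variable {K L q : ℕ} {h : ℕ → ℕ} {c c' : Finset ℕ → Bool} {e : Bool}

/-- the rule for the tuples which are neither constant nor monotone -/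
def rule (q : ℕ) (d : Fin (q + 1 + 2) → ℕ) : Bool := decide (d 0 ≤ d 1 ∧ d 2 ≤ d 1)

theorem triple (hG : Mono K (L + q) (q + 1 + 2) c c' c' (rule q) h e) (D : ℕ → ℕ)
    (hD : ∀ i, hd K (h i) (h (i + 1)) = D i) (i : ℕ) (hi : i + 3 < L)
    (h1 : ¬ (D i = D (i + 1) ∧ D (i + 1) = D (i + 2)))
    (h2 : ¬ (D i < D (i + 1) ∧ D (i + 1) < D (i + 2)))
    (h3 : ¬ (D (i + 1) < D i ∧ D (i + 2) < D (i + 1))) :
    (D i ≤ D (i + 1) ∧ D (i + 2) ≤ D (i + 1)) ↔ e = true := by
  let idx : Fin (q + 1 + 2 + 1) → ℕ := fun a => if a.val ≤ 3 then i + a.val else L + (a.val - 4)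
  have hidxm : StrictMono idx := by
    intro a b hab
    have : a.val < b.val := hab
    simp only [idx]
    split_ifs <;> omega
  have hidxM : ∀ a, idx a < L + q := by
    intro a
    have := a.2
    simp only [idx]
    split_ifs <;> omega
  have v0 : (0 : Fin (q + 1 + 2)).val = 0 := rfl
  have v1 : (1 : Fin (q + 1 + 2)).val = 1 := by simp
  have v2 : (2 : Fin (q + 1 + 2)).val = 2 := by
    show 2 % (q + 1 + 2) = 2
    exact Nat.mod_eq_of_lt (by omega)
  have key : ∀ a : Fin (q + 1 + 2), a.val ≤ 2 → ds K (fun j => h (idx j)) a = D (i + a.val) := by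
    intro a ha
    unfold ds
    have e1 : idx a.castSucc = i + a.val := by
      simp only [idx, Fin.val_castSucc]
      rw [if_pos (by omega)]
    have e2 : idx a.succ = i + a.val + 1 := by
      simp only [idx, Fin.val_succ]
      rw [if_pos (by omega)]
      omega
    beta_reduce
    rw [e1, e2, hD]
  have k0 : ds K (fun j => h (idx j)) 0 = D i := by rw [key 0 (by omega), v0, Nat.add_zero]
  have k1 : ds K (fun j => h (idx j)) 1 = D (i + 1) := by rw [key 1 (by omega), v1]
  have k2 : ds K (fun j => h (idx j)) 2 = D (i + 2) := by rw [key 2 (by omega), v2]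
  have l01 : (0 : Fin (q + 1 + 2)) < 1 := by rw [Fin.lt_def, v0, v1]; omega
  have l12 : (1 : Fin (q + 1 + 2)) < 2 := by rw [Fin.lt_def, v2, v1]; omega
  have n1 : ¬ ∃ t, ∀ a, ds K (fun j => h (idx j)) a = t := by
    rintro ⟨t, ht⟩
    apply h1
    rw [← k0, ← k1, ← k2, ht, ht, ht]
    exact ⟨rfl, rfl⟩
  have n2 : ¬ StrictMono (ds K (fun j => h (idx j))) := by
    intro hs
    apply h2
    rw [← k0, ← k1, ← k2]
    exact ⟨hs l01, hs l12⟩
  have n3 : ¬ StrictAnti (ds K (fun j => h (idx j))) := by
    intro hs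
    apply h3
    rw [← k0, ← k1, ← k2]
    exact ⟨hs l01, hs l12⟩
  have := hG idx hidxm hidxM
  unfold G at this
  rw [if_neg n1, if_neg n2, if_neg n3] at this
  unfold rule at this
  rw [k0, k1, k2] at this
  rw [← this, decide_eq_true_eq]

/-- **Homogeneous sets are small.** -/
theorem hom_bound {n m : ℕ} (hK : 2 ≤ K)
    (hc : ∀ H ⊆ range K, H.card = n → ¬ Homogeneous (q + 1 + 2) c H)
    (hc' : ∀ H ⊆ range (m + 1), H.card = n → ¬ Homogeneous (q + 1 + 2) c' H)
    (hmono : ∀ i j, i < j → j < L + q → h i < h j) (hlt : ∀ i, i < L + q → h i < K ^ (m + 1))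
    (hG : Mono K (L + q) (q + 1 + 2) c c' c' (rule q) h e) : L < 3 * n := by
  by_contra hcon
  push Not at hcon
  have hn : 0 < n := by
    by_contra hn0
    obtain rfl : n = 0 := by omega
    refine hc ∅ (by simp) rfl ?_
    intro A hA B hB hAc
    rw [subset_empty.1 hA, card_empty] at hAc
    omega
  obtain ⟨D, hDd⟩ : ∃ D : ℕ → ℕ, D = fun i => hd K (h i) (h (i + 1)) := ⟨_, rfl⟩
  have hD : ∀ i, hd K (h i) (h (i + 1)) = D i := fun i => by rw [hDd]
  have hDm : ∀ i, i + 1 < L + q → D i < m + 1 := by
    intro i hi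
    rw [← hD]
    exact Nat.lt_succ_of_le (hd_lt hK (hlt i (by omega)) (hlt (i + 1) hi))
  have htr := triple hG D hD
  obtain ⟨ℓ, hℓ⟩ : ∃ ℓ, ℓ + 2 = L := ⟨L - 2, by omega⟩
  -- bounds for the segments
  have up : ∀ a b, a ≤ b → b ≤ ℓ → (∀ i, a ≤ i → i < b → D i < D (i + 1)) → b - a + 1 < n := by
    intro a b hab hbℓ hs
    apply seg_lt D hab (p := q + 1 + 2) (m := m + 1) ?_ (fun i _ h2 => hDm i (by omega)) c' e hc' ?_
    · intro i j hi hib hj hjb hij
      rcases lt_trichotomy i j with h4 | h4 | h4
      · have := strict_lt hs hi j h4 hjb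
        omega
      · exact h4
      · have := strict_lt hs hj i h4 hib
        omega
    · intro T hT hTc
      rw [hDd] at hT
      exact seg_mono hK hmono hG (by omega) (fun i h1 h2 => by
        rw [hD, hD]
        exact hs i h1 h2) T hT hTc
  have down : ∀ a b, a ≤ b → b ≤ ℓ → (∀ i, a ≤ i → i < b → D (i + 1) < D i) → b - a + 1 < n := by
    intro a b hab hbℓ hs
    apply seg_lt D hab (p := q + 1 + 2) (m := m + 1) ?_ (fun i _ h2 => hDm i (by omega)) c' e hc' ?_
    · intro i j hi hib hj hjb hij
      rcases lt_trichotomy i j with h4 | h4 | h4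
      · have := strict_gt hs hi j h4 hjb
        omega
      · exact h4
      · have := strict_gt hs hj i h4 hib
        omega
    · intro T hT hTc
      rw [hDd] at hT
      exact seg_anti hK hmono hG (by omega) (fun i h1 h2 => by
        rw [hD, hD]
        exact hs i h1 h2) T hT hTc
  have const : ∀ a b, a ≤ b → b ≤ ℓ → (∀ i, a ≤ i → i < b → D i = D (i + 1)) → b - a + 1 < n := by
    intro a b hab hbℓ hs
    have heq : ∀ i, a ≤ i → i ≤ b → D i = D a := by
      intro i hi
      induction i, hi using Nat.le_induction with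
      | base => exact fun _ => rfl
      | succ i hi ih =>
        intro h1
        rw [← hs i hi (by omega)]
        exact ih (by omega)
    have hdist : ∀ i j, a ≤ i → i < j → j ≤ b + 1 → hd K (h i) (h j) = D a := by
      intro i j hi hij hjb
      obtain ⟨k, k1, k2, k3⟩ := hd_eq hK hmono (i := i) j hij (by omega)
      rw [k3, hD, heq k (by omega) (by omega)]
    apply seg_lt (fun i => dig K (D a) (h i)) hab (p := q + 1 + 2) (m := K) ?_
      (fun i _ _ => dig_lt hK _ _) c e hc ?_
    · intro i j hi hib hj hjb hij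
      rcases lt_trichotomy i j with h4 | h4 | h4
      · have := dig_lt_dig hK (hmono i j h4 (by omega)) (hdist i j hi h4 (by omega))
        omega
      · exact h4
      · have := dig_lt_dig hK (hmono j i h4 (by omega)) (hdist j i hj h4 (by omega))
        omega
    · intro T hT hTc
      exact seg_const hK hmono hG (by omega) (fun i h1 h2 => by rw [hD, heq i h1 h2]) T hT hTc
  cases e with
  | true =>
    obtain ⟨a, b, h1, h2, h3, h4, h5⟩ := signs ℓ (fun i => D i < D (i + 1))
      (fun i => D (i + 1) < D i) (by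
        intro i hi hp
        by_contra hcc
        have hp' : D (i + 1) < D (i + 2) := hp
        have := (htr i (by omega) (by omega) (by omega) (by omega)).2 rfl
        omega) (by
        intro i hi hp
        by_contra hcc
        have hcc' : ¬ D (i + 2) < D (i + 1) := hcc
        have hp' : D (i + 1) < D i := hp
        have := (htr i (by omega) (by omega) (by omega) (by omega)).2 rfl
        omega)
    have s1 := up 0 a (Nat.zero_le _) (by omega) (fun i _ hi => h3 i hi)
    have s2 := const a b h1 h2 (fun i hi hi' => by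
      have := h4 i hi hi'
      omega)
    have s3 := down b ℓ h2 le_rfl h5
    omega
  | false =>
    obtain ⟨a, b, h1, h2, h3, h4, h5⟩ := signs ℓ (fun i => D (i + 1) < D i)
      (fun i => D i < D (i + 1)) (by
        intro i hi hp
        by_contra hcc
        have hp' : D (i + 2) < D (i + 1) := hp
        have := (htr i (by omega) (by omega) (by omega) (by omega)).1 (by omega)
        exact absurd this (by decide)) (by
        intro i hi hp
        by_contra hcc
        have hcc' : ¬ D (i + 1) < D (i + 2) := hcc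
        have hp' : D i < D (i + 1) := hp
        have := (htr i (by omega) (by omega) (by omega) (by omega)).1 (by omega)
        exact absurd this (by decide))
    have s1 := down 0 a (Nat.zero_le _) (by omega) (fun i _ hi => h3 i hi)
    have s2 := const a b h1 h2 (fun i hi hi' => by
      have := h4 i hi hi'
      omega)
    have s3 := up b ℓ h2 le_rfl h5
    omega

end

end Pool.Agent.H89.Lh
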