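import Pool.Agent.H89.Lh.Defs
import Pool.Agent.H89.Lh.Hom
import Pool.Graph.R_seed8.H507R3.RamAll
import Pool.Graph.R_pool_sql_team_seeded_843ab51a.V11209.FC.PairRamsey
import Pool.Graph.R_pool_sql_team_seeded_1acbe0a2.Y422.RC.VCLow

set_option autoImplicit false

/-!
# Ramsey numbers and the Littlestone dimension of the last coordinate
-/

namespace Pool.Agent.H89.Lh

open Finset

variable {κ : Type}

theorem below_iff {A : Finset ℕ} {k : ℕ} (hA : A.card = k) (x : ℕ) :
    (x ∉ A ∧ Pool.Agent.V11209.FC.below A x = k) ↔ ∀ y ∈ A, y < x := by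
  constructor
  · rintro ⟨_, h⟩
    exact lt_of_below (h.trans hA.symm)
  · intro h
    refine ⟨fun hx => lt_irrefl _ (h x hx), ?_⟩
    unfold Pool.Agent.V11209.FC.below
    rw [filter_true_of_mem h, hA]

/-- the definition of the library -/
theorem noTree_iff (c : Finset ℕ → κ) (k : ℕ) (V : Finset ℕ) : ∀ (d : ℕ) (W : Finset ℕ),
    NoTree c k V d (W : Set ℕ) ↔ Pool.Agent.V11209.FC.NoTree c (k + 1) k V d W := by
  intro d
  induction d with
  | zero =>
    intro W
    show (W : Set ℕ) = ∅ ↔ W = ∅
    exact Finset.coe_eq_empty
  | succ d ih =>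
    intro W
    have key : ∀ A : Finset ℕ, A.card = k → ∀ a : κ,
        {x ∈ (W : Set ℕ) | (∀ y ∈ A, y < x) ∧ c (insert x A) = a} =
          ((Pool.Agent.V11209.FC.part c k W A a : Finset ℕ) : Set ℕ) := by
      intro A hA a
      ext x
      rw [mem_coe, Pool.Agent.V11209.FC.mem_part]
      show (x ∈ W ∧ (∀ y ∈ A, y < x) ∧ c (insert x A) = a) ↔ _
      rw [← below_iff hA x]
      tauto
    constructor
    · intro h A hA hAc a b hab
      have hAc' : A.card = k := by omega
      have := h A hA hAc' a b hab
      rw [key A hAc', key A hAc', ih, ih] at this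
      exact this
    · intro h A hA hAc a b hab
      rw [key A hAc, key A hAc, ih, ih]
      exact h A hA (by omega) a b hab

theorem homog_iff (k : ℕ) (c : Finset ℕ → κ) (S : Finset ℕ) :
    Homog k c S ↔ Pool.Agent.TH138.NF.Homogeneous k c S := Iff.rfl

/-- the lower bound, `r = q + 4 ≥ 4`, two colours -/
theorem lower_arrow {q n K m : ℕ} (hK : 2 ≤ K) (c c' : Finset ℕ → Bool)
    (hc : ∀ H ⊆ range K, H.card = n → ¬ Homog (q + 3) c H)
    (hc' : ∀ H ⊆ range (m + 1), H.card = n → ¬ Homog (q + 3) c' H) :
    ∃ χ : Finset ℕ → Bool,
      NoTree χ (q + 3) (range (K ^ (m + 1))) (m + 2) (range (K ^ (m + 1)) : Set ℕ) ∧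
      ∀ H ⊆ range (K ^ (m + 1)), H.card = 3 * n + q → ¬ Homog (q + 4) χ H := by
  have hn : 2 ≤ n := by
    by_contra hn
    have hn1 : n ≤ K := by omega
    refine hc (range n) (range_mono hn1) (card_range n) ?_
    intro A hA B hB hAc
    have := card_le_card hA
    rw [hAc, card_range] at this
    omega
  refine ⟨col K (q + 1 + 2) c c' c' (rule q), ?_, ?_⟩
  · rw [noTree_iff]
    exact noTree_col (q := q + 2) hK c c' c' (rule q) _ m _ (fun u hu v hv =>
      hd_lt hK (mem_range.1 hu) (mem_range.1 hv))
  · intro H hH hHc hhom
    let h : ℕ → ℕ := fun i => if hi : i < 3 * n + q then H.orderEmbOfFin hHc ⟨i, hi⟩ else 0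
    have hval : ∀ i (hi : i < 3 * n + q), h i = H.orderEmbOfFin hHc ⟨i, hi⟩ := fun i hi => by
      simp only [h]
      rw [dif_pos hi]
    have hmem : ∀ i, i < 3 * n + q → h i ∈ H := fun i hi => by
      rw [hval i hi]
      exact H.orderEmbOfFin_mem hHc _
    have hmono : ∀ i j, i < j → j < 3 * n + q → h i < h j := by
      intro i j hij hj
      rw [hval i (by omega), hval j hj]
      exact (H.orderEmbOfFin hHc).strictMono hij
    obtain ⟨S₀, hS₀, hS₀c⟩ := exists_subset_card_eq (show q + 4 ≤ H.card by omega)
    have hG : Mono K (3 * n + q) (q + 1 + 2) c c' c' (rule q) h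
        (col K (q + 1 + 2) c c' c' (rule q) S₀) := by
      intro idx hidx hidxM
      have hx : StrictMono (fun i => h (idx i)) := fun i j hij => hmono _ _ (hidx hij) (hidxM j)
      rw [← col_image c c' c' (rule q) (fun i => h (idx i)) hx]
      apply hhom
      · intro y hy
        obtain ⟨i, -, rfl⟩ := mem_image.1 hy
        exact hmem _ (hidxM i)
      · exact hS₀
      · rw [card_image_of_injective _ hx.injective, card_univ, Fintype.card_fin]
      · exact hS₀c
    have := hom_bound hK hc hc' hmono (fun i hi => mem_range.1 (hH (hmem i hi))) hG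
    exact absurd this (lt_irrefl _)

/-- the lower bound for triples and six colours -/
theorem lower_arrow_three {n K m : ℕ} (hK : 2 ≤ K) (c c' : Finset ℕ → Bool)
    (hc : ∀ H ⊆ range K, H.card = n → ¬ Homog 2 c H)
    (hc' : ∀ H ⊆ range (m + 1), H.card = n → ¬ Homog 2 c' H) :
    ∃ χ : Finset ℕ → Fin 3 × Bool,
      NoTree χ 2 (range (K ^ (m + 1))) (m + 2) (range (K ^ (m + 1)) : Set ℕ) ∧
      ∀ H ⊆ range (K ^ (m + 1)), H.card = n + 1 → ¬ Homog 3 χ H := by
  have hn : 2 ≤ n := by
    by_contra hn
    have hn1 : n ≤ K := by omega
    refine hc (range n) (range_mono hn1) (card_range n) ?_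
    intro A hA B hB hAc
    have := card_le_card hA
    rw [hAc, card_range] at this
    omega
  obtain ⟨cS, hcS⟩ : ∃ f : Finset ℕ → Fin 3 × Bool, f = fun T => (0, c T) := ⟨_, rfl⟩
  obtain ⟨cM, hcM⟩ : ∃ f : Finset ℕ → Fin 3 × Bool, f = fun T => (1, c' T) := ⟨_, rfl⟩
  obtain ⟨cA, hcA⟩ : ∃ f : Finset ℕ → Fin 3 × Bool, f = fun T => (2, c' T) := ⟨_, rfl⟩
  obtain ⟨rest, _⟩ : ∃ f : (Fin (0 + 2) → ℕ) → Fin 3 × Bool, f = fun _ => (0, true) := ⟨_, rfl⟩
  refine ⟨col K (0 + 2) cS cM cA rest, ?_, ?_⟩
  · rw [noTree_iff]
    exact noTree_col (q := 1) hK cS cM cA rest _ m _ (fun u hu v hv =>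
      hd_lt hK (mem_range.1 hu) (mem_range.1 hv))
  · intro H hH hHc hhom
    let h : ℕ → ℕ := fun i => if hi : i < n + 1 then H.orderEmbOfFin hHc ⟨i, hi⟩ else 0
    have hval : ∀ i (hi : i < n + 1), h i = H.orderEmbOfFin hHc ⟨i, hi⟩ := fun i hi => by
      simp only [h]
      rw [dif_pos hi]
    have hmem : ∀ i, i < n + 1 → h i ∈ H := fun i hi => by
      rw [hval i hi]
      exact H.orderEmbOfFin_mem hHc _
    have hmono : ∀ i j, i < j → j < n + 1 → h i < h j := by
      intro i j hij hj
      rw [hval i (by omega), hval j hj]
      exact (H.orderEmbOfFin hHc).strictMono hij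
    obtain ⟨S₀, hS₀, hS₀c⟩ := exists_subset_card_eq (show 3 ≤ H.card by omega)
    obtain ⟨e, he⟩ : ∃ e, e = col K (0 + 2) cS cM cA rest S₀ := ⟨_, rfl⟩
    have hG : Mono K (n + 1) (0 + 2) cS cM cA rest h e := by
      intro idx hidx hidxM
      have hx : StrictMono (fun i => h (idx i)) := fun i j hij => hmono _ _ (hidx hij) (hidxM j)
      rw [← col_image cS cM cA rest (fun i => h (idx i)) hx, he]
      apply hhom
      · intro y hy
        obtain ⟨i, -, rfl⟩ := mem_image.1 hy
        exact hmem _ (hidxM i)
      · exact hS₀
      · rw [card_image_of_injective _ hx.injective, card_univ, Fintype.card_fin]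
      · exact hS₀c
    obtain ⟨D, hDd⟩ : ∃ D : ℕ → ℕ, D = fun i => hd K (h i) (h (i + 1)) := ⟨_, rfl⟩
    have hD : ∀ i, hd K (h i) (h (i + 1)) = D i := fun i => by rw [hDd]
    have hDm : ∀ i, i + 1 < n + 1 → D i < m + 1 := by
      intro i hi
      rw [← hD]
      exact Nat.lt_succ_of_le (hd_lt hK (mem_range.1 (hH (hmem _ (by omega))))
        (mem_range.1 (hH (hmem _ hi))))
    -- the colours of consecutive triples
    have htr : ∀ i, i + 2 < n + 1 →
        (D i = D (i + 1) → e.1 = 0) ∧ (D i < D (i + 1) → e.1 = 1) ∧ (D (i + 1) < D i → e.1 = 2) := by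
      intro i hi
      let idx : Fin (0 + 2 + 1) → ℕ := fun a => i + a.val
      have hidxm : StrictMono idx := fun a b hab => by
        have : a.val < b.val := hab
        simp only [idx]
        omega
      have hg := hG idx hidxm (fun a => by
        have := a.2
        simp only [idx]
        omega)
      have k0 : ds K (fun j => h (idx j)) 0 = D i := by
        unfold ds
        exact hD i
      have k1 : ds K (fun j => h (idx j)) 1 = D (i + 1) := by
        unfold ds
        exact hD (i + 1)
      have h01 : (0 : Fin (0 + 2)) < 1 := by decide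
      unfold G at hg
      refine ⟨fun h1 => ?_, fun h1 => ?_, fun h1 => ?_⟩
      · rw [if_pos ⟨D i, fun j => by
          fin_cases j
          · exact k0
          · exact k1.trans h1.symm⟩, hcS] at hg
        rw [← hg]
      · rw [if_neg, if_pos, hcM] at hg
        · rw [← hg]
        · intro a b hab
          fin_cases a <;> fin_cases b
          · exact absurd hab (lt_irrefl _)
          · exact (k0.trans_lt h1).trans_eq k1.symm
          · exact absurd (hab.trans h01) (lt_irrefl _)
          · exact absurd hab (lt_irrefl _)
        · rintro ⟨t, ht⟩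
          have e0 := ht 0
          have e1 := ht 1
          rw [k0] at e0
          rw [k1] at e1
          omega
      · rw [if_neg, if_neg, if_pos, hcA] at hg
        · rw [← hg]
        · intro a b hab
          fin_cases a <;> fin_cases b
          · exact absurd hab (lt_irrefl _)
          · exact (k1.trans_lt h1).trans_eq k0.symm
          · exact absurd (hab.trans h01) (lt_irrefl _)
          · exact absurd hab (lt_irrefl _)
        · intro hs
          have := hs h01
          rw [k0, k1] at this
          omega
        · rintro ⟨t, ht⟩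
          have e0 := ht 0
          have e1 := ht 1
          rw [k0] at e0
          rw [k1] at e1
          omega
    have h3 : ∀ v : Fin 3, v = 0 ∨ v = 1 ∨ v = 2 := by decide
    rcases h3 e.1 with he1 | he1 | he1
    · -- constant
      have heq : ∀ i, i ≤ n - 1 → D i = D 0 := by
        intro i
        induction i with
        | zero => exact fun _ => rfl
        | succ i ih =>
          intro hi
          obtain ⟨g1, g2, g3⟩ := htr i (by omega)
          rw [← ih (by omega)]
          rcases lt_trichotomy (D i) (D (i + 1)) with h4 | h4 | h4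
          · have := g2 h4
            rw [he1] at this
            exact absurd this (by decide)
          · exact h4.symm
          · have := g3 h4
            rw [he1] at this
            exact absurd this (by decide)
      have hdist : ∀ i j, i < j → j ≤ n → hd K (h i) (h j) = D 0 := by
        intro i j hij hjb
        obtain ⟨k, k1, k2, k3⟩ := hd_eq hK hmono (i := i) j hij (by omega)
        rw [k3, hD, heq k (by omega)]
      have := seg_lt (fun i => dig K (D 0) (h i)) (Nat.zero_le (n - 1)) (p := 2) (n := n) (m := K)
        (by
          intro i j _ hib _ hjb hij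
          rcases lt_trichotomy i j with h4 | h4 | h4
          · have := dig_lt_dig hK (hmono i j h4 (by omega)) (hdist i j h4 (by omega))
            omega
          · exact h4
          · have := dig_lt_dig hK (hmono j i h4 (by omega)) (hdist j i h4 (by omega))
            omega) (fun i _ _ => dig_lt hK _ _) c e.2 hc (by
          intro T hT hTc
          have := seg_const (q := 0) hK hmono hG (a := 0) (b := n - 1) (t := D 0) (by omega)
            (fun i _ h2 => by rw [hD, heq i h2]) T hT hTc
          rw [← this, hcS])
      omega
    · have hs : ∀ i, 0 ≤ i → i < n - 1 → D i < D (i + 1) := by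
        intro i _ hi
        obtain ⟨g1, g2, g3⟩ := htr i (by omega)
        rcases lt_trichotomy (D i) (D (i + 1)) with h4 | h4 | h4
        · exact h4
        · have := g1 h4
          rw [he1] at this
          exact absurd this (by decide)
        · have := g3 h4
          rw [he1] at this
          exact absurd this (by decide)
      have := seg_lt D (Nat.zero_le (n - 1)) (p := 2) (n := n) (m := m + 1)
        (by
          intro i j hi hib hj hjb hij
          rcases lt_trichotomy i j with h4 | h4 | h4
          · have := strict_lt hs hi j h4 hjb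
            omega
          · exact h4
          · have := strict_lt hs hj i h4 hib
            omega) (fun i _ _ => hDm i (by omega)) c' e.2 hc' (by
          intro T hT hTc
          rw [hDd] at hT
          have := seg_mono (q := 0) hK hmono hG (a := 0) (b := n - 1) (by omega)
            (fun i h1 h2 => by rw [hD, hD]; exact hs i h1 h2) T hT hTc
          rw [← this, hcM])
      omega
    · have hs : ∀ i, 0 ≤ i → i < n - 1 → D (i + 1) < D i := by
        intro i _ hi
        obtain ⟨g1, g2, g3⟩ := htr i (by omega)
        rcases lt_trichotomy (D i) (D (i + 1)) with h4 | h4 | h4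
        · have := g2 h4
          rw [he1] at this
          exact absurd this (by decide)
        · have := g1 h4
          rw [he1] at this
          exact absurd this (by decide)
        · exact h4
      have := seg_lt D (Nat.zero_le (n - 1)) (p := 2) (n := n) (m := m + 1)
        (by
          intro i j hi hib hj hjb hij
          rcases lt_trichotomy i j with h4 | h4 | h4
          · have := strict_gt hs hi j h4 hjb
            omega
          · exact h4
          · have := strict_gt hs hj i h4 hib
            omega) (fun i _ _ => hDm i (by omega)) c' e.2 hc' (by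
          intro T hT hTc
          rw [hDd] at hT
          have := seg_anti (q := 0) hK hmono hG (a := 0) (b := n - 1) (by omega)
            (fun i h1 h2 => by rw [hD, hD]; exact hs i h1 h2) T hT hTc
          rw [← this, hcA])
      omega

end Pool.Agent.H89.Lh
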