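import Pool.Agent.H89.Lh.Col

set_option autoImplicit false

/-!
# Homogeneous sets of the colouring: monotone and constant segments
-/

namespace Pool.Agent.H89.Lh

open Finset Pool.Agent.TH138.NF Pool.Agent.V11209.FC

variable {κ : Type}

theorem pick (F : ℕ → ℕ) (a b p : ℕ) (hF : ∀ i j, a ≤ i → i ≤ b → a ≤ j → j ≤ b → F i = F j → i = j)
    (T : Finset ℕ) (hT : T ⊆ (Icc a b).image F) (hc : T.card = p) :
    ∃ τ : Fin p → ℕ, StrictMono τ ∧ (∀ i, a ≤ τ i ∧ τ i ≤ b) ∧
      univ.image (fun i => F (τ i)) = T := by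
  set J := (Icc a b).filter (fun j => F j ∈ T) with hJ
  have hJT : J.image F = T := by
    ext x
    rw [mem_image]
    constructor
    · rintro ⟨j, hj, rfl⟩
      exact (mem_filter.1 hj).2
    · intro hx
      obtain ⟨j, hj, rfl⟩ := mem_image.1 (hT hx)
      exact ⟨j, mem_filter.2 ⟨hj, hx⟩, rfl⟩
  have hJc : J.card = p := by
    rw [← hc, ← hJT, card_image_of_injOn]
    intro i hi j hj hij
    have h1 := mem_Icc.1 (mem_filter.1 hi).1
    have h2 := mem_Icc.1 (mem_filter.1 hj).1
    exact hF i j h1.1 h1.2 h2.1 h2.2 hij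
  refine ⟨J.orderEmbOfFin hJc, (J.orderEmbOfFin hJc).strictMono, ?_, ?_⟩
  · intro i
    exact mem_Icc.1 (mem_filter.1 (J.orderEmbOfFin_mem hJc i)).1
  · rw [← hJT]
    ext x
    simp only [mem_image, mem_univ, true_and]
    constructor
    · rintro ⟨i, rfl⟩
      exact ⟨_, J.orderEmbOfFin_mem hJc i, rfl⟩
    · rintro ⟨j, hj, rfl⟩
      have : j ∈ Set.range (J.orderEmbOfFin hJc) := by
        rw [Finset.range_orderEmbOfFin]
        exact hj
      obtain ⟨i, hi⟩ := this
      exact ⟨i, by rw [hi]⟩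

theorem seg_lt (F : ℕ → ℕ) {a b p n m : ℕ} (hab : a ≤ b)
    (hF : ∀ i j, a ≤ i → i ≤ b → a ≤ j → j ≤ b → F i = F j → i = j)
    (hm : ∀ i, a ≤ i → i ≤ b → F i < m) (c : Finset ℕ → κ) (e : κ)
    (hno : ∀ H ⊆ range m, H.card = n → ¬ Homogeneous p c H)
    (hcol : ∀ T ⊆ (Icc a b).image F, T.card = p → c T = e) : b - a + 1 < n := by
  by_contra hcon
  push Not at hcon
  have hcard : ((Icc a b).image F).card = b - a + 1 := by
    rw [card_image_of_injOn, Nat.card_Icc]
    · omega
    · intro i hi j hj hij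
      have h1 := mem_Icc.1 hi
      have h2 := mem_Icc.1 hj
      exact hF i j h1.1 h1.2 h2.1 h2.2 hij
  obtain ⟨H, hH, hHc⟩ := exists_subset_card_eq (show n ≤ ((Icc a b).image F).card by omega)
  refine hno H ?_ hHc ?_
  · intro x hx
    obtain ⟨i, hi, rfl⟩ := mem_image.1 (hH hx)
    have h1 := mem_Icc.1 hi
    exact mem_range.2 (hm i h1.1 h1.2)
  · intro A hA B hB hAc hBc
    rw [hcol A (hA.trans hH) hAc, hcol B (hB.trans hH) hBc]

section

variable {K M : ℕ} {h : ℕ → ℕ}

theorem le_hd (hK : 2 ≤ K) (hmono : ∀ i j, i < j → j < M → h i < h j) {i : ℕ} : ∀ j, i < j →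
    j < M → ∀ k, i ≤ k → k < j → hd K (h k) (h (k + 1)) ≤ hd K (h i) (h j) := by
  intro j
  induction j with
  | zero => intro h1; omega
  | succ j ih =>
    intro h1 h2 k h3 h4
    rcases Nat.lt_or_ge i j with hij | hij
    · rw [hd_max hK (hmono i j hij (by omega)).le (hmono j (j + 1) (by omega) h2).le]
      rcases Nat.lt_or_ge k j with hk | hk
      · exact (ih hij (by omega) k h3 hk).trans (le_max_left _ _)
      · obtain rfl : k = j := by omega
        exact le_max_right _ _
    · obtain rfl : i = j := by omega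
      obtain rfl : k = i := by omega
      exact le_rfl

theorem hd_eq (hK : 2 ≤ K) (hmono : ∀ i j, i < j → j < M → h i < h j) {i : ℕ} : ∀ j, i < j →
    j < M → ∃ k, i ≤ k ∧ k < j ∧ hd K (h i) (h j) = hd K (h k) (h (k + 1)) := by
  intro j
  induction j with
  | zero => intro h1; omega
  | succ j ih =>
    intro h1 h2
    rcases Nat.lt_or_ge i j with hij | hij
    · rw [hd_max hK (hmono i j hij (by omega)).le (hmono j (j + 1) (by omega) h2).le]
      obtain ⟨k, h3, h4, h5⟩ := ih hij (by omega)
      rcases le_total (hd K (h i) (h j)) (hd K (h j) (h (j + 1))) with h6 | h6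
      · exact ⟨j, hij.le, by omega, max_eq_right h6⟩
      · exact ⟨k, h3, by omega, by rw [max_eq_left h6, h5]⟩
    · obtain rfl : i = j := by omega
      exact ⟨i, le_rfl, by omega, rfl⟩

end

/-- all increasing tuples from the first `M` values of `h` have the colour `e` -/
def Mono (K M p : ℕ) (cS cM cA : Finset ℕ → κ) (rest : (Fin p → ℕ) → κ) (h : ℕ → ℕ) (e : κ) :
    Prop :=
  ∀ idx : Fin (p + 1) → ℕ, StrictMono idx → (∀ i, idx i < M) →
    G K cS cM cA rest (fun i => h (idx i)) = e

section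

variable {K M q : ℕ} {h : ℕ → ℕ} {cS cM cA : Finset ℕ → κ} {rest : (Fin (q + 2) → ℕ) → κ} {e : κ}

theorem strict_lt {D : ℕ → ℕ} {a b : ℕ} (hD : ∀ i, a ≤ i → i < b → D i < D (i + 1)) {i : ℕ}
    (hi : a ≤ i) : ∀ j, i < j → j ≤ b → D i < D j := by
  intro j
  induction j with
  | zero => intro h1; omega
  | succ j ih =>
    intro h1 h2
    rcases Nat.lt_or_ge i j with h3 | h3
    · exact (ih h3 (by omega)).trans (hD j (by omega) (by omega))
    · obtain rfl : i = j := by omega
      exact hD i hi (by omega)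

theorem strict_gt {D : ℕ → ℕ} {a b : ℕ} (hD : ∀ i, a ≤ i → i < b → D (i + 1) < D i) {i : ℕ}
    (hi : a ≤ i) : ∀ j, i < j → j ≤ b → D j < D i := by
  intro j
  induction j with
  | zero => intro h1; omega
  | succ j ih =>
    intro h1 h2
    rcases Nat.lt_or_ge i j with h3 | h3
    · exact (hD j (by omega) (by omega)).trans (ih h3 (by omega))
    · obtain rfl : i = j := by omega
      exact hD i hi (by omega)

/-- increasing segments -/
theorem seg_mono (hK : 2 ≤ K) (hmono : ∀ i j, i < j → j < M → h i < h j)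
    (hG : Mono K M (q + 2) cS cM cA rest h e) {a b : ℕ} (hb : b + 1 < M)
    (hD : ∀ i, a ≤ i → i < b → hd K (h i) (h (i + 1)) < hd K (h (i + 1)) (h (i + 1 + 1)))
    (T : Finset ℕ) (hT : T ⊆ (Icc a b).image (fun i => hd K (h i) (h (i + 1))))
    (hTc : T.card = q + 2) : cM T = e := by
  obtain ⟨D, hDd⟩ : ∃ D : ℕ → ℕ, D = fun i => hd K (h i) (h (i + 1)) := ⟨_, rfl⟩
  have hD' : ∀ i, a ≤ i → i < b → D i < D (i + 1) := by rw [hDd]; exact hD
  have hDe : ∀ i, hd K (h i) (h (i + 1)) = D i := fun i => by rw [hDd]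
  rw [← hDd] at hT
  obtain ⟨τ, h1, h2, h3⟩ := pick D a b (q + 2) (by
    intro i j hi hib hj hjb hij
    rcases lt_trichotomy i j with h4 | h4 | h4
    · have := strict_lt hD' hi j h4 hjb
      omega
    · exact h4
    · have := strict_lt hD' hj i h4 hib
      omega) T hT hTc
  -- the distance of two vertices of the segment
  have hdist : ∀ i j, a ≤ i → i ≤ j → j ≤ b → hd K (h i) (h (j + 1)) = D j := by
    intro i j hi hij hjb
    apply le_antisymm
    · obtain ⟨k, k1, k2, k3⟩ := hd_eq hK hmono (i := i) (j + 1) (by omega) (by omega)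
      rw [k3, hDe]
      rcases Nat.lt_or_ge k j with hk | hk
      · exact (strict_lt hD' (by omega) j hk hjb).le
      · obtain rfl : k = j := by omega
        exact le_rfl
    · have := le_hd hK hmono (i := i) (j + 1) (by omega) (by omega) j hij (by omega)
      rwa [hDe] at this
  let idx : Fin (q + 2 + 1) → ℕ := Fin.cons (τ 0) (fun i => τ i + 1)
  have hidx1 : ∀ i : Fin (q + 2), idx i.succ = τ i + 1 := fun i => by
    simp only [idx, Fin.cons_succ]
  have hidx2 : ∀ i : Fin (q + 2), a ≤ idx i.castSucc ∧ idx i.castSucc ≤ τ i := by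
    intro i
    induction i using Fin.cases with
    | zero =>
      have : idx (Fin.castSucc 0) = τ 0 := by
        simp only [idx, Fin.castSucc_zero, Fin.cons_zero]
      rw [this]
      exact ⟨(h2 0).1, le_rfl⟩
    | succ i =>
      have : idx (Fin.castSucc i.succ) = τ i.castSucc + 1 := by
        rw [← Fin.succ_castSucc, hidx1]
      rw [this]
      have h4 := h1 (Fin.castSucc_lt_succ (i := i))
      exact ⟨by have := (h2 i.castSucc).1; omega, h4⟩
  have hidxm : StrictMono idx := by
    rw [Fin.strictMono_iff_lt_succ]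
    intro i
    rw [hidx1]
    have := (hidx2 i).2
    omega
  have hidxM : ∀ i, idx i < M := by
    intro i
    induction i using Fin.lastCases with
    | last =>
      rw [← Fin.succ_last, hidx1]
      have := (h2 (Fin.last (q + 1))).2
      omega
    | cast i =>
      have h4 := (hidx2 i).2
      have h5 := (h2 i).2
      omega
  have hds : ds K (fun i => h (idx i)) = fun i => D (τ i) := by
    funext i
    unfold ds
    beta_reduce
    rw [hidx1, hdist _ _ (hidx2 i).1 (hidx2 i).2 (h2 i).2]
  have hds' : StrictMono (ds K (fun i => h (idx i))) := by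
    rw [hds]
    intro i j hij
    exact strict_lt hD' (h2 i).1 _ (h1 hij) (h2 j).2
  have hnc : ¬ ∃ t, ∀ i, ds K (fun i => h (idx i)) i = t := by
    rintro ⟨t, ht⟩
    have h4 := hds' (show (0 : Fin (q + 2)) < 1 by
      rw [Fin.lt_def]; simp)
    rw [ht, ht] at h4
    exact lt_irrefl _ h4
  have := hG idx hidxm hidxM
  unfold G at this
  rw [if_neg hnc, if_pos hds', hds, h3] at this
  exact this

/-- decreasing segments -/
theorem seg_anti (hK : 2 ≤ K) (hmono : ∀ i j, i < j → j < M → h i < h j)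
    (hG : Mono K M (q + 2) cS cM cA rest h e) {a b : ℕ} (hb : b + 1 < M)
    (hD : ∀ i, a ≤ i → i < b → hd K (h (i + 1)) (h (i + 1 + 1)) < hd K (h i) (h (i + 1)))
    (T : Finset ℕ) (hT : T ⊆ (Icc a b).image (fun i => hd K (h i) (h (i + 1))))
    (hTc : T.card = q + 2) : cA T = e := by
  obtain ⟨D, hDd⟩ : ∃ D : ℕ → ℕ, D = fun i => hd K (h i) (h (i + 1)) := ⟨_, rfl⟩
  have hD' : ∀ i, a ≤ i → i < b → D (i + 1) < D i := by rw [hDd]; exact hD
  have hDe : ∀ i, hd K (h i) (h (i + 1)) = D i := fun i => by rw [hDd]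
  rw [← hDd] at hT
  obtain ⟨τ, h1, h2, h3⟩ := pick D a b (q + 2) (by
    intro i j hi hib hj hjb hij
    rcases lt_trichotomy i j with h4 | h4 | h4
    · have := strict_gt hD' hi j h4 hjb
      omega
    · exact h4
    · have := strict_gt hD' hj i h4 hib
      omega) T hT hTc
  have hdist : ∀ i j, a ≤ i → i < j → j ≤ b + 1 → hd K (h i) (h j) = D i := by
    intro i j hi hij hjb
    apply le_antisymm
    · obtain ⟨k, k1, k2, k3⟩ := hd_eq hK hmono (i := i) j hij (by omega)
      rw [k3, hDe]
      rcases Nat.lt_or_ge i k with hk | hk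
      · exact (strict_gt hD' hi k hk (by omega)).le
      · obtain rfl : k = i := by omega
        exact le_rfl
    · have := le_hd hK hmono (i := i) j hij (by omega) i le_rfl hij
      rwa [hDe] at this
  let idx : Fin (q + 2 + 1) → ℕ := app τ (τ (Fin.last (q + 1)) + 1)
  have hidx1 : ∀ i : Fin (q + 2), idx i.castSucc = τ i := fun i => app_castSucc _ _ _
  have hidxl : idx (Fin.last (q + 2)) = τ (Fin.last (q + 1)) + 1 := app_last _ _
  have hidxm : StrictMono idx := by
    apply app_mono τ h1
    intro i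
    have := h1.monotone (Fin.le_last i)
    omega
  have hidxb : ∀ i, idx i ≤ b + 1 := by
    intro i
    have h4 := hidxm.monotone (Fin.le_last i)
    rw [hidxl] at h4
    have := (h2 (Fin.last (q + 1))).2
    omega
  have hidxM : ∀ i, idx i < M := fun i => by
    have := hidxb i
    omega
  have hds : ds K (fun i => h (idx i)) = fun i => D (τ i) := by
    funext i
    unfold ds
    beta_reduce
    rw [hdist _ _ (by rw [hidx1]; exact (h2 i).1) (hidxm (Fin.castSucc_lt_succ)) (hidxb _), hidx1]
  have hds' : StrictAnti (ds K (fun i => h (idx i))) := by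
    rw [hds]
    intro i j hij
    exact strict_gt hD' (h2 i).1 _ (h1 hij) (h2 j).2
  have h01 : (0 : Fin (q + 2)) < 1 := by rw [Fin.lt_def]; simp
  have hnc : ¬ ∃ t, ∀ i, ds K (fun i => h (idx i)) i = t := by
    rintro ⟨t, ht⟩
    have h4 := hds' h01
    rw [ht, ht] at h4
    exact lt_irrefl _ h4
  have hnm : ¬ StrictMono (ds K (fun i => h (idx i))) := by
    intro h4
    exact lt_asymm (h4 h01) (hds' h01)
  have := hG idx hidxm hidxM
  unfold G at this
  rw [if_neg hnc, if_neg hnm, if_pos hds', hds, h3] at this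
  exact this

/-- constant segments -/
theorem seg_const (hK : 2 ≤ K) (hmono : ∀ i j, i < j → j < M → h i < h j)
    (hG : Mono K M (q + 2) cS cM cA rest h e) {a b t : ℕ} (hb : b + 1 < M)
    (hD : ∀ i, a ≤ i → i ≤ b → hd K (h i) (h (i + 1)) = t)
    (T : Finset ℕ) (hT : T ⊆ (Icc a b).image (fun i => dig K t (h i)))
    (hTc : T.card = q + 2) : cS T = e := by
  have hdist : ∀ i j, a ≤ i → i < j → j ≤ b + 1 → hd K (h i) (h j) = t := by
    intro i j hi hij hjb
    obtain ⟨k, k1, k2, k3⟩ := hd_eq hK hmono (i := i) j hij (by omega)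
    rw [k3, hD k (by omega) (by omega)]
  have hlt : ∀ i j, a ≤ i → i < j → j ≤ b + 1 → dig K t (h i) < dig K t (h j) := fun i j hi hij hjb =>
    dig_lt_dig hK (hmono i j hij (by omega)) (hdist i j hi hij hjb)
  obtain ⟨τ, h1, h2, h3⟩ := pick (fun i => dig K t (h i)) a b (q + 2) (by
    intro i j hi hib hj hjb hij
    rcases lt_trichotomy i j with h4 | h4 | h4
    · have := hlt i j hi h4 (by omega)
      omega
    · exact h4
    · have := hlt j i hj h4 (by omega)
      omega) T hT hTc
  let idx : Fin (q + 2 + 1) → ℕ := app τ (b + 1)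
  have hidx1 : ∀ i : Fin (q + 2), idx i.castSucc = τ i := fun i => app_castSucc _ _ _
  have hidxl : idx (Fin.last (q + 2)) = b + 1 := app_last _ _
  have hidxm : StrictMono idx := by
    apply app_mono τ h1
    intro i
    have := (h2 i).2
    omega
  have hidxb : ∀ i, idx i ≤ b + 1 := by
    intro i
    have h4 := hidxm.monotone (Fin.le_last i)
    rwa [hidxl] at h4
  have hds : ds K (fun i => h (idx i)) = fun _ => t := by
    funext i
    unfold ds
    exact hdist _ _ (by rw [hidx1]; exact (h2 i).1) (hidxm (Fin.castSucc_lt_succ)) (hidxb _)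
  have := hG idx hidxm (fun i => by have := hidxb i; omega)
  unfold G at this
  rw [if_pos ⟨t, fun i => by rw [hds]⟩, hds] at this
  simp only [hidx1] at this
  rwa [h3] at this

end

end Pool.Agent.H89.Lh
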